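import Pool.Agent.BGN.Main

/-!
# MP_112773_al: Brown-Goodearl question for noetherian Hopf algebras with normal separation

Let `k` be a field and `H` a left and right noetherian Hopf algebra over `k` such that for all prime
ideals `P ⊆ M` with `H/P` infinite dimensional and `H/M` finite dimensional the ideal `M/P` contains
a nonzero normal element of `H/P`.  Then `H` is Artin-Schelter Gorenstein.
-/

universe u

theorem Pool.Agent.Results.MP_112773_al.NormalSeparation.result (k : Type u) [Field k]
    (H : Type u) [Ring H] [HopfAlgebra k H] [IsNoetherianRing H] [IsNoetherianRing Hᵐᵒᵖ]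
    (h : BGN.NormalSep k H) : BGN.ASGorenstein k H :=
  BGN.main k H h
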